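import Pool.Agent.helper8.GD.Spec

open Finset

namespace GD

lemma SL3_inner (Q D : Finset ℕ) (hD : D ⊆ Q) (x : ℕ → ℝ) :
    ∑ A ∈ Q.powerset with D ⊆ A, (∏ l ∈ A, x l) * (∏ l ∈ Q \ A, (1 - x l)) = ∏ l ∈ D, x l := by
  classical
  have h1 : ∏ l ∈ Q \ D, (x l + (1 - x l)) = 1 := by
    apply Finset.prod_eq_one
    intro l _
    ring
  rw [Finset.prod_add] at h1
  have h2 : ∑ A ∈ Q.powerset with D ⊆ A, (∏ l ∈ A, x l) * (∏ l ∈ Q \ A, (1 - x l)) =
      ∑ B ∈ (Q \ D).powerset, (∏ l ∈ D, x l) * ((∏ l ∈ B, x l) * ∏ l ∈ (Q \ D) \ B, (1 - x l)) := by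
    symm
    refine Finset.sum_bij' (fun B _ => D ∪ B) (fun A _ => A \ D) ?_ ?_ ?_ ?_ ?_
    · intro B hB
      rw [Finset.mem_powerset] at hB
      rw [Finset.mem_filter, Finset.mem_powerset]
      exact ⟨Finset.union_subset hD (hB.trans Finset.sdiff_subset), Finset.subset_union_left⟩
    · intro A hA
      rw [Finset.mem_filter, Finset.mem_powerset] at hA
      rw [Finset.mem_powerset]
      exact Finset.sdiff_subset_sdiff hA.1 (Finset.Subset.refl D)
    · intro B hB
      rw [Finset.mem_powerset] at hB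
      have hdis : Disjoint D B :=
        Finset.disjoint_of_subset_right hB Finset.disjoint_sdiff
      exact Finset.union_sdiff_cancel_left hdis
    · intro A hA
      rw [Finset.mem_filter] at hA
      exact Finset.union_sdiff_of_subset hA.2
    · intro B hB
      rw [Finset.mem_powerset] at hB
      have hdis : Disjoint D B :=
        Finset.disjoint_of_subset_right hB Finset.disjoint_sdiff
      have hs : (Q \ D) \ B = Q \ (D ∪ B) := by
        ext t
        simp only [Finset.mem_sdiff, Finset.mem_union, not_or]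
        tauto
      rw [Finset.prod_union hdis, hs, mul_assoc]
  rw [h2, ← Finset.mul_sum, h1, mul_one]

theorem SL3 : SL3_stmt := by
  classical
  intro Q ζ F _ hF
  have h1 : Ex Q F = ∑ A ∈ Q.powerset, ∑ D ∈ Q.powerset,
      if D ⊆ A then ζ D * ((∏ l ∈ A, (2 / (l : ℝ))) * (∏ l ∈ Q \ A, (1 - 2 / (l : ℝ)))) else 0 := by
    unfold Ex
    refine Finset.sum_congr rfl ?_
    intro A hA
    rw [Finset.mem_powerset] at hA
    rw [← hF A hA, ← Finset.sum_filter, mul_comm, Finset.sum_mul]
    refine Finset.sum_congr ?_ (fun _ _ => rfl)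
    ext D
    rw [Finset.mem_powerset, Finset.mem_filter, Finset.mem_powerset]
    exact ⟨fun h => ⟨h.trans hA, h⟩, fun h => h.2⟩
  rw [h1, Finset.sum_comm]
  unfold Ev
  refine Finset.sum_congr rfl ?_
  intro D hD
  rw [Finset.mem_powerset] at hD
  rw [← Finset.sum_filter, ← Finset.mul_sum, SL3_inner Q D hD (fun l => 2 / (l : ℝ))]
  have h3 : ∏ l ∈ D, (2 / (l : ℝ)) = 2 ^ #D / (pr D : ℝ) := by
    rw [Finset.prod_div_distrib, Finset.prod_const]
    unfold pr
    rw [Nat.cast_prod]
  rw [h3]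

end GD
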